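import Mathlib

/-! Determinants of matrices with restricted row patterns. -/

namespace Pool.Agent.R804.Tysz

open Matrix

/-- `B` is admissible: the nonzero entries of every row, read from left to right, form one of the
six lists of the problem -/
def Admissible {m n : ℕ} (B : Matrix (Fin m) (Fin n) ℝ) : Prop :=
  ∀ r, (List.ofFn (B r)).filter (fun x => @decide (x ≠ 0) (Classical.dec _)) ∈
    ([[1], [-1, 2], [2, -1], [-1, 1, 1], [1, -1, 1], [1, 1, -1]] : List (List ℝ))

def vec {n : ℕ} : Option (Fin n) → Fin n → ℤ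
  | none => 0
  | some i => Pi.single i 1

def IsArc {n : ℕ} (v : Fin n → ℤ) : Prop := ∃ a b : Option (Fin n), v = vec a - vec b

lemma vec_comp {n : ℕ} (c : Fin (n + 1)) (a : Option (Fin (n + 1))) :
    ∃ a' : Option (Fin n), (fun t => vec a (c.succAbove t)) = vec a' := by
  rcases a with _ | i
  · exact ⟨none, rfl⟩
  · rcases Fin.eq_self_or_eq_succAbove c i with rfl | ⟨j, rfl⟩
    · refine ⟨none, ?_⟩
      funext t
      simp only [vec, Pi.zero_apply]
      exact Pi.single_eq_of_ne (Fin.succAbove_ne i t) _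
    · refine ⟨some j, ?_⟩
      funext t
      simp only [vec]
      by_cases h : t = j
      · subst h; simp
      · rw [Pi.single_eq_of_ne h, Pi.single_eq_of_ne]
        exact fun e => h (Fin.succAbove_right_injective e)

lemma arc_comp {n : ℕ} (c : Fin (n + 1)) {v : Fin (n + 1) → ℤ} (h : IsArc v) :
    IsArc (fun t => v (c.succAbove t)) := by
  obtain ⟨a, b, rfl⟩ := h
  obtain ⟨a', ha⟩ := vec_comp c a
  obtain ⟨b', hb⟩ := vec_comp c b
  refine ⟨a', b', ?_⟩
  rw [← ha, ← hb]
  rfl

lemma det_single {n : ℕ} (M : Matrix (Fin (n + 1)) (Fin (n + 1)) ℤ)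
    (ih : ∀ M : Matrix (Fin n) (Fin n) ℤ, (∀ r, IsArc (M r)) → |M.det| ≤ 1)
    (hM : ∀ r, IsArc (M r)) (r : Fin (n + 1)) (ε : ℤ) (hε : |ε| ≤ 1) (c : Option (Fin (n + 1)))
    (hr : M r = ε • vec c) : |M.det| ≤ 1 := by
  rcases c with _ | k
  · rw [Matrix.det_eq_zero_of_row_eq_zero r]
    · simp
    · intro j
      rw [hr]
      simp [vec]
  · rw [Matrix.det_succ_row M r, Finset.sum_eq_single k]
    · have h1 : M r k = ε := by rw [hr]; simp [vec]
      rw [h1, abs_mul, abs_mul, abs_pow, abs_neg, abs_one, one_pow, one_mul]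
      have h2 : |(M.submatrix r.succAbove k.succAbove).det| ≤ 1 := by
        apply ih
        intro i
        exact arc_comp k (hM (r.succAbove i))
      have h3 := abs_nonneg ε
      nlinarith [abs_nonneg (M.submatrix r.succAbove k.succAbove).det]
    · intro j _ hj
      have : M r j = 0 := by
        rw [hr]
        simp [vec, Pi.single_eq_of_ne hj]
      rw [this]
      ring
    · intro h
      exact absurd (Finset.mem_univ _) h

lemma det_arc : ∀ (n : ℕ) (M : Matrix (Fin n) (Fin n) ℤ), (∀ r, IsArc (M r)) →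
    |M.det| ≤ 1 := by
  intro n
  induction n with
  | zero => intro M _; simp
  | succ n ih =>
    intro M hM
    choose a b hab using hM
    by_cases h1 : ∃ r, a r = none
    · obtain ⟨r, hr⟩ := h1
      apply det_single M ih (fun r => ⟨a r, b r, hab r⟩) r (-1) (by norm_num) (b r)
      rw [hab r, hr]
      simp [vec]
    · by_cases h2 : ∃ r, b r = none
      · obtain ⟨r, hr⟩ := h2
        apply det_single M ih (fun r => ⟨a r, b r, hab r⟩) r 1 (by norm_num) (a r)
        rw [hab r, hr]
        simp [vec]
      · have hker : M *ᵥ (fun _ => 1) = 0 := by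
          funext r
          obtain ⟨i, hi⟩ := Option.ne_none_iff_exists'.1 (fun h => h1 ⟨r, h⟩)
          obtain ⟨j, hj⟩ := Option.ne_none_iff_exists'.1 (fun h => h2 ⟨r, h⟩)
          simp only [Matrix.mulVec, dotProduct, mul_one, Pi.zero_apply]
          rw [hab r, hi, hj]
          simp [vec, Finset.sum_sub_distrib]
        have hdet : M.det = 0 := by
          apply Matrix.exists_mulVec_eq_zero_iff.1
          exact ⟨fun _ => 1, fun h => one_ne_zero (congrFun h 0), hker⟩
        rw [hdet]
        simp

lemma det_sum {n : ℕ} (s : Finset (Fin n)) : ∀ M : Matrix (Fin n) (Fin n) ℤ,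
    (∀ r ∈ s, ∃ u v, IsArc u ∧ IsArc v ∧ M r = u + v) → (∀ r, r ∉ s → IsArc (M r)) →
    |M.det| ≤ 2 ^ s.card := by
  classical
  induction s using Finset.induction_on with
  | empty =>
    intro M _ h
    simpa using det_arc n M (fun r => h r (by simp))
  | insert a s ha ih =>
    intro M h1 h2
    obtain ⟨u, v, hu, hv, huv⟩ := h1 a (by simp)
    have e : M.det = (M.updateRow a u).det + (M.updateRow a v).det := by
      have h3 : M = M.updateRow a (u + v) := by
        rw [← huv, Matrix.updateRow_eq_self]
      conv_lhs => rw [h3]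
      rw [Matrix.det_updateRow_add]
    have hP : ∀ w, IsArc w → |(M.updateRow a w).det| ≤ 2 ^ s.card := by
      intro w hw
      apply ih
      · intro r hr
        have hra : r ≠ a := fun h => ha (h ▸ hr)
        rw [Matrix.updateRow_ne hra]
        exact h1 r (by simp [hr])
      · intro r hr
        by_cases hra : r = a
        · subst hra
          rw [Matrix.updateRow_self]
          exact hw
        · rw [Matrix.updateRow_ne hra]
          exact h2 r (by simp [hra, hr])
    rw [e, Finset.card_insert_of_notMem ha, pow_succ]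
    have h4 := hP u hu
    have h5 := hP v hv
    have h6 := abs_add_le (M.updateRow a u).det (M.updateRow a v).det
    linarith

noncomputable def flt (l : List ℝ) : List ℝ :=
  l.filter (fun x => @decide (x ≠ 0) (Classical.dec _))

lemma flt_cons_zero (l : List ℝ) : flt (0 :: l) = flt l := by
  simp [flt]

lemma flt_cons_ne {x : ℝ} (hx : x ≠ 0) (l : List ℝ) : flt (x :: l) = x :: flt l := by
  simp [flt, hx]

lemma flt_nil {n : ℕ} : ∀ {v : Fin n → ℝ}, flt (List.ofFn v) = [] → v = 0 := by
  intro v h
  funext i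
  by_contra hi
  have : v i ∈ flt (List.ofFn v) := by
    rw [flt, List.mem_filter]
    exact ⟨(List.mem_ofFn' _ _).2 ⟨i, rfl⟩, by simpa using hi⟩
  rw [h] at this
  simp at this

lemma peel {n : ℕ} : ∀ {v : Fin n → ℝ} {x : ℝ} {l : List ℝ}, flt (List.ofFn v) = x :: l →
    ∃ i w, v = Pi.single i x + w ∧ flt (List.ofFn w) = l := by
  induction n with
  | zero =>
    intro v x l h
    simp [flt] at h
  | succ n ih =>
    intro v x l h
    rw [List.ofFn_succ] at h
    by_cases h0 : v 0 = 0
    · rw [h0, flt_cons_zero] at h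
      obtain ⟨i, w, h1, h2⟩ := ih h
      refine ⟨i.succ, Fin.cons 0 w, ?_, ?_⟩
      · funext t
        rcases Fin.eq_zero_or_eq_succ t with rfl | ⟨t, rfl⟩
        · simp [h0]
        · have := congrFun h1 t
          simp only [Pi.add_apply, Fin.cons_succ] at this ⊢
          rw [this]
          by_cases hti : t = i
          · subst hti; simp
          · rw [Pi.single_eq_of_ne hti, Pi.single_eq_of_ne (fun e => hti (Fin.succ_injective _ e))]
      · rw [List.ofFn_succ]
        simp only [Fin.cons_zero, Fin.cons_succ]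
        rw [flt_cons_zero]
        exact h2
    · rw [flt_cons_ne h0] at h
      obtain ⟨h1, h2⟩ := List.cons.inj h
      refine ⟨0, Fin.cons 0 (fun t => v t.succ), ?_, ?_⟩
      · funext t
        rcases Fin.eq_zero_or_eq_succ t with rfl | ⟨t, rfl⟩
        · simp [h1]
        · simp
      · rw [List.ofFn_succ]
        simp only [Fin.cons_zero, Fin.cons_succ]
        rw [flt_cons_zero]
        exact h2

lemma cast_vec {n : ℕ} (i t : Fin n) :
    ((vec (some i) t : ℤ) : ℝ) = (Pi.single i (1 : ℝ) : Fin n → ℝ) t := by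
  by_cases h : t = i
  · subst h; simp [vec]
  · simp [vec, Pi.single_eq_of_ne h]

lemma single_smul {n : ℕ} (i t : Fin n) (x : ℝ) :
    (Pi.single i x : Fin n → ℝ) t = x * (Pi.single i (1 : ℝ) : Fin n → ℝ) t := by
  by_cases h : t = i
  · subst h; simp
  · simp [Pi.single_eq_of_ne h]

lemma row_struct {n : ℕ} {v : Fin n → ℝ}
    (h : flt (List.ofFn v) ∈
      ([[1], [-1, 2], [2, -1], [-1, 1, 1], [1, -1, 1], [1, 1, -1]] : List (List ℝ))) :
    ∃ u w : Fin n → ℤ, IsArc u ∧ IsArc w ∧ ∀ t, v t = ((u t + w t : ℤ) : ℝ) := by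
  have key : ∀ (a b c d : Option (Fin n)),
      (∀ t, v t = (vec a t : ℝ) - (vec b t : ℝ) + ((vec c t : ℝ) - (vec d t : ℝ))) →
      ∃ u w : Fin n → ℤ, IsArc u ∧ IsArc w ∧ ∀ t, v t = ((u t + w t : ℤ) : ℝ) := by
    intro a b c d ht
    refine ⟨_, _, ⟨a, b, rfl⟩, ⟨c, d, rfl⟩, fun t => ?_⟩
    rw [ht t]
    push_cast [Pi.sub_apply]
    ring
  simp only [List.mem_cons, List.not_mem_nil, or_false] at h
  rcases h with h | h | h | h | h | h
  · obtain ⟨i, w, rfl, h1⟩ := peel h
    have := flt_nil h1
    subst this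
    apply key (some i) none none none
    intro t
    simp only [Pi.add_apply, cast_vec, Pi.zero_apply, add_zero]
    simp only [vec, Pi.zero_apply, Int.cast_zero]
    ring
  · obtain ⟨i, w, rfl, h1⟩ := peel h
    obtain ⟨j, w', rfl, h2⟩ := peel h1
    have := flt_nil h2
    subst this
    apply key (some j) (some i) (some j) none
    intro t
    simp only [Pi.add_apply, cast_vec, Pi.zero_apply, add_zero]
    rw [single_smul i t (-1), single_smul j t 2]
    simp only [vec, Pi.zero_apply, Int.cast_zero]
    ring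
  · obtain ⟨i, w, rfl, h1⟩ := peel h
    obtain ⟨j, w', rfl, h2⟩ := peel h1
    have := flt_nil h2
    subst this
    apply key (some i) (some j) (some i) none
    intro t
    simp only [Pi.add_apply, cast_vec, Pi.zero_apply, add_zero]
    rw [single_smul j t (-1), single_smul i t 2]
    simp only [vec, Pi.zero_apply, Int.cast_zero]
    ring
  · obtain ⟨i, w, rfl, h1⟩ := peel h
    obtain ⟨j, w', rfl, h2⟩ := peel h1
    obtain ⟨k, w'', rfl, h3⟩ := peel h2
    have := flt_nil h3
    subst this
    apply key (some j) (some i) (some k) none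
    intro t
    simp only [Pi.add_apply, cast_vec, Pi.zero_apply, add_zero]
    rw [single_smul i t (-1)]
    simp only [vec, Pi.zero_apply, Int.cast_zero]
    ring
  · obtain ⟨i, w, rfl, h1⟩ := peel h
    obtain ⟨j, w', rfl, h2⟩ := peel h1
    obtain ⟨k, w'', rfl, h3⟩ := peel h2
    have := flt_nil h3
    subst this
    apply key (some i) (some j) (some k) none
    intro t
    simp only [Pi.add_apply, cast_vec, Pi.zero_apply, add_zero]
    rw [single_smul j t (-1)]
    simp only [vec, Pi.zero_apply, Int.cast_zero]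
    ring
  · obtain ⟨i, w, rfl, h1⟩ := peel h
    obtain ⟨j, w', rfl, h2⟩ := peel h1
    obtain ⟨k, w'', rfl, h3⟩ := peel h2
    have := flt_nil h3
    subst this
    apply key (some i) (some k) (some j) none
    intro t
    simp only [Pi.add_apply, cast_vec, Pi.zero_apply, add_zero]
    rw [single_smul k t (-1)]
    simp only [vec, Pi.zero_apply, Int.cast_zero]
    ring

theorem main {m : ℕ} (B : Matrix (Fin m) (Fin (m + 1)) ℝ) (hB : Admissible B)
    (j : Fin (m + 1)) : |(B.submatrix id j.succAbove).det| ≤ 2 ^ m := by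
  have h : ∀ r, ∃ u w : Fin (m + 1) → ℤ, IsArc u ∧ IsArc w ∧
      ∀ t, B r t = ((u t + w t : ℤ) : ℝ) := fun r => row_struct (hB r)
  choose u w hu hw hB' using h
  let N : Matrix (Fin m) (Fin m) ℤ := fun r t => u r (j.succAbove t) + w r (j.succAbove t)
  have h1 : B.submatrix id j.succAbove = (Int.castRingHom ℝ).mapMatrix N := by
    ext r t
    exact hB' r (j.succAbove t)
  rw [h1, ← RingHom.map_det]
  have h2 := det_sum Finset.univ N (fun r _ =>
    ⟨fun t => u r (j.succAbove t), fun t => w r (j.succAbove t), arc_comp j (hu r),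
      arc_comp j (hw r), rfl⟩) (fun r hr => absurd (Finset.mem_univ r) hr)
  rw [Finset.card_univ, Fintype.card_fin] at h2
  have h3 : ((|N.det| : ℤ) : ℝ) ≤ ((2 ^ m : ℤ) : ℝ) := by exact_mod_cast h2
  simpa using h3

end Pool.Agent.R804.Tysz
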